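import Pool.Agent.H78.RainbowHouseSound

/-!
# The rainbow induced-subgraph number is not additive under join

With `H₁ = K₂` and `H₂` the house (the complement of the path on five vertices) one has
`ρ(H₁) = 2`, `ρ(H₂) = 9`, but `ρ(H₁ + H₂) ≤ 10`.
-/

namespace Pool.Agent.Results.MP_38c8a2_co.JoinNotAdditive

open Pool.Agent.H78.RainbowHouse

/-- `Arrow G H`: every proper vertex colouring of `G` (with natural numbers as colours) has a
rainbow induced subgraph isomorphic to `H`. -/
def Arrow {V W : Type*} (G : SimpleGraph V) (H : SimpleGraph W) : Prop :=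
  ∀ c : G.Coloring ℕ, ∃ f : H ↪g G, Function.Injective fun w => c (f w)

/-- `rho H` is the least number of vertices of a graph `G` with `Arrow G H`. -/
noncomputable def rho {W : Type*} (H : SimpleGraph W) : ℕ :=
  sInf {n : ℕ | ∃ G : SimpleGraph (Fin n), Arrow G H}

/-- The join of two graphs on disjoint vertex sets: all edges between the two sides are added. -/
def join {V W : Type*} (G : SimpleGraph V) (H : SimpleGraph W) : SimpleGraph (V ⊕ W) where
  Adj x y :=
    match x, y with
    | Sum.inl a, Sum.inl b => G.Adj a b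
    | Sum.inr a, Sum.inr b => H.Adj a b
    | Sum.inl _, Sum.inr _ => True
    | Sum.inr _, Sum.inl _ => True
  symm := by
    constructor
    rintro (a | a) (b | b) h
    · exact G.adj_symm h
    · trivial
    · trivial
    · exact H.adj_symm h
  loopless := by
    constructor
    rintro (a | a) h
    · exact G.loopless.irrefl a h
    · exact H.loopless.irrefl a h

/-- The house: the complement of the path `0 - 1 - 2 - 3 - 4`. -/
def house : SimpleGraph (Fin 5) where
  Adj i j := i.val + 2 ≤ j.val ∨ j.val + 2 ≤ i.val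
  symm := by
    constructor
    intro i j h
    exact h.symm
  loopless := by
    constructor
    intro i h
    omega

instance : DecidableRel house.Adj := fun i j =>
  inferInstanceAs (Decidable (i.val + 2 ≤ j.val ∨ j.val + 2 ≤ i.val))

instance {V W : Type*} (G : SimpleGraph V) (H : SimpleGraph W) [DecidableRel G.Adj]
    [DecidableRel H.Adj] : DecidableRel (join G H).Adj := fun x y =>
  match x, y with
  | Sum.inl a, Sum.inl b => inferInstanceAs (Decidable (G.Adj a b))
  | Sum.inr a, Sum.inr b => inferInstanceAs (Decidable (H.Adj a b))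
  | Sum.inl _, Sum.inr _ => inferInstanceAs (Decidable True)
  | Sum.inr _, Sum.inl _ => inferInstanceAs (Decidable True)

theorem Arrow.mono {V V' W : Type*} {G : SimpleGraph V} {G' : SimpleGraph V'}
    {H : SimpleGraph W} (e : G ↪g G') (h : Arrow G H) : Arrow G' H := by
  intro c
  obtain ⟨f, hf⟩ := h (c.comp e.toHom)
  refine ⟨f.trans e, ?_⟩
  exact hf

/-! ### The eight vertex graphs -/

theorem code_inj (i j k l : Fin 8) (hij : i < j) (hkl : k < l)
    (h : code i j = code k l) : i = k ∧ j = l := by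
  revert i j k l
  decide +kernel

theorem code_comm (i j : ℕ) : code i j = code j i := by
  unfold code
  rcases lt_trichotomy i j with h | h | h
  · rw [if_pos h, if_neg (by omega)]
  · subst h; rfl
  · rw [if_neg (by omega), if_pos h]

/-- codes of the non-adjacent pairs -/
def A (G : SimpleGraph (Fin 8)) (v : ℕ) : Prop :=
  ∃ i j : Fin 8, i < j ∧ code i j = v ∧ ¬ G.Adj i j

theorem A_code (G : SimpleGraph (Fin 8)) {i j : Fin 8} (h : i ≠ j) :
    A G (code i j) ↔ ¬ G.Adj i j := by
  rcases lt_or_gt_of_ne h with h | h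
  · constructor
    · rintro ⟨k, l, hkl, hc, hn⟩
      obtain ⟨rfl, rfl⟩ := code_inj k l i j hkl h hc
      exact hn
    · intro hn
      exact ⟨i, j, h, rfl, hn⟩
  · constructor
    · rintro ⟨k, l, hkl, hc, hn⟩
      obtain ⟨rfl, rfl⟩ := code_inj k l j i hkl h (hc.trans (code_comm _ _))
      exact fun h' => hn h'.symm
    · intro hn
      exact ⟨j, i, h, code_comm _ _, fun h' => hn h'.symm⟩

theorem testBit_bit (i j v : ℕ) : Nat.testBit (bit i j) v = true ↔ v = code i j := by
  change Nat.testBit (2 ^ code i j) v = true ↔ _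
  rw [Nat.testBit_two_pow]
  simp only [decide_eq_true_eq]
  exact eq_comm

theorem house_adj (i j : Fin 5) : house.Adj i j ↔ i.val + 2 ≤ j.val ∨ j.val + 2 ≤ i.val :=
  Iff.rfl

/-- the base assumption: `0, …, 4` form a house in `G` -/
def Base (G : SimpleGraph (Fin 8)) : Prop :=
  ∀ i j : Fin 5, G.Adj (Fin.castLE (by norm_num) i) (Fin.castLE (by norm_num) j) ↔ house.Adj i j

theorem ok1_of (G : SimpleGraph (Fin 8)) (hG : Base G) {a b : Fin 8} (hne : a ≠ b)
    (h : ¬ G.Adj a b) : ok1 a b = true := by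
  unfold ok1
  have hne' : (a.val != b.val) = true := by
    rw [bne_iff_ne]
    exact fun h => hne (Fin.ext h)
  rw [hne', Bool.true_and]
  by_cases h5 : a.val < 5 ∧ b.val < 5
  · have h1 := hG ⟨a.val, h5.1⟩ ⟨b.val, h5.2⟩
    have h2 : (Fin.castLE (by norm_num) (⟨a.val, h5.1⟩ : Fin 5) : Fin 8) = a := Fin.ext rfl
    have h3 : (Fin.castLE (by norm_num) (⟨b.val, h5.2⟩ : Fin 5) : Fin 8) = b := Fin.ext rfl
    rw [h2, h3, house_adj] at h1
    have h4 : ¬ (a.val + 2 ≤ b.val ∨ b.val + 2 ≤ a.val) := fun h' => h (h1.mpr h')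
    have h6 : a.val ≠ b.val := fun h => hne (Fin.ext h)
    have h7 : (a.val + 1 == b.val || b.val + 1 == a.val) = true := by
      rw [Bool.or_eq_true, beq_iff_eq, beq_iff_eq]
      omega
    rw [h7, Bool.or_true]
  · have h1 : (Nat.blt a 5 && Nat.blt b 5) = false := by
      rw [Bool.eq_false_iff]
      intro h'
      rw [Bool.and_eq_true, Nat.blt_eq, Nat.blt_eq] at h'
      exact h5 h'
    rw [h1]
    rfl

theorem ok0_of (G : SimpleGraph (Fin 8)) (hG : Base G) {a b : Fin 8}
    (h : G.Adj a b) : ok0 a b = true := by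
  unfold ok0
  have hne : a ≠ b := G.ne_of_adj h
  have hne' : (a.val != b.val) = true := by
    rw [bne_iff_ne]
    exact fun h => hne (Fin.ext h)
  rw [hne', Bool.true_and]
  by_cases h5 : a.val < 5 ∧ b.val < 5
  · have h1 := hG ⟨a.val, h5.1⟩ ⟨b.val, h5.2⟩
    have h2 : (Fin.castLE (by norm_num) (⟨a.val, h5.1⟩ : Fin 5) : Fin 8) = a := Fin.ext rfl
    have h3 : (Fin.castLE (by norm_num) (⟨b.val, h5.2⟩ : Fin 5) : Fin 8) = b := Fin.ext rfl
    rw [h2, h3, house_adj] at h1
    have h4 : (a.val + 2 ≤ b.val ∨ b.val + 2 ≤ a.val) := h1.mp h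
    have h7 : (a.val + 1 == b.val || b.val + 1 == a.val) = false := by
      rw [Bool.eq_false_iff]
      intro h'
      rw [Bool.or_eq_true, beq_iff_eq, beq_iff_eq] at h'
      omega
    rw [h7]
    simp
  · have h1 : (Nat.blt a 5 && Nat.blt b 5) = false := by
      rw [Bool.eq_false_iff]
      intro h'
      rw [Bool.and_eq_true, Nat.blt_eq, Nat.blt_eq] at h'
      exact h5 h'
    rw [h1]
    rfl

theorem mem_patterns {a b c d e : ℕ} (ha : a < 8) (hb : b < 8) (hc : c < 8) (hd : d < 8)
    (he : e < 8) (h1 : ok1 a b = true) (h2 : ok1 b c = true) (h3 : ok0 a c = true)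
    (h4 : ok1 c d = true) (h5 : ok0 b d = true) (h6 : ok0 a d = true)
    (h7 : ok1 d e = true) (h8 : ok0 c e = true) (h9 : ok0 b e = true) (h10 : ok0 a e = true) :
    pat a b c d e ∈ patterns := by
  unfold patterns
  refine List.mem_flatMap.mpr ⟨a, List.mem_range.mpr ha, ?_⟩
  refine List.mem_flatMap.mpr ⟨b, List.mem_filter.mpr ⟨List.mem_range.mpr hb, h1⟩, ?_⟩
  refine List.mem_flatMap.mpr ⟨c, List.mem_filter.mpr ⟨List.mem_range.mpr hc, ?_⟩, ?_⟩
  · simp [h2, h3]
  refine List.mem_flatMap.mpr ⟨d, List.mem_filter.mpr ⟨List.mem_range.mpr hd, ?_⟩, ?_⟩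
  · simp [h4, h5, h6]
  refine List.mem_map.mpr ⟨e, List.mem_filter.mpr ⟨List.mem_range.mpr he, ?_⟩, rfl⟩
  simp [h7, h8, h9, h10]

theorem not_arrow_of_base (G : SimpleGraph (Fin 8)) (hG : Base G) : ¬ Arrow G house := by
  intro hArr
  have hb : ∀ i j : Fin 8, (hi : i.val < 5) → (hj : j.val < 5) → i.val + 1 = j.val →
      A G (code i j) := by
    intro i j hi hj hij
    rw [A_code G (by intro h; rw [h] at hij; omega)]
    have h1 := hG ⟨i.val, hi⟩ ⟨j.val, hj⟩
    have h2 : (Fin.castLE (by norm_num) (⟨i.val, hi⟩ : Fin 5) : Fin 8) = i := Fin.ext rfl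
    have h3 : (Fin.castLE (by norm_num) (⟨j.val, hj⟩ : Fin 5) : Fin 8) = j := Fin.ext rfl
    rw [h2, h3, house_adj] at h1
    rw [h1]
    simp only
    omega
  have h0 : A G 0 := hb 0 1 (by decide) (by decide) (by decide)
  have h2 : A G 2 := hb 1 2 (by decide) (by decide) (by decide)
  have h5 : A G 5 := hb 2 3 (by decide) (by decide) (by decide)
  have h9 : A G 9 := hb 3 4 (by decide) (by decide) (by decide)
  obtain ⟨p, e, hm, hE, hL⟩ := tree_sound (A G) h0 h2 h5 h9
  have hmask : ∀ i j : Fin 8, i < j →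
      (Nat.testBit e (code i j) = true ↔ col p i = col p j) := by
    intro i j hij
    unfold maskOK at hm
    rw [List.all_eq_true] at hm
    have h1 := hm j.val (List.mem_range.mpr j.isLt)
    rw [List.all_eq_true] at h1
    have h2 := h1 i.val (List.mem_range.mpr hij)
    rw [beq_iff_eq, tb_eq] at h2
    rw [h2, Nat.beq_eq]
  have hmask' : ∀ i j : Fin 8, i ≠ j →
      (Nat.testBit e (code i j) = true ↔ col p i = col p j) := by
    intro i j hij
    rcases lt_or_gt_of_ne hij with h | h
    · exact hmask i j h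
    · rw [code_comm, hmask j i h]
      exact eq_comm
  let c : G.Coloring ℕ := SimpleGraph.Coloring.mk (fun i => col p i.val) (by
    intro i j hadj heq
    have hne : i ≠ j := G.ne_of_adj hadj
    have h1 := (hmask' i j hne).mpr heq
    exact (A_code G hne).mp (hE _ h1) hadj)
  obtain ⟨f, hf⟩ := hArr c
  have hinj : ∀ i j : Fin 5, i ≠ j → col p (f i).val ≠ col p (f j).val := by
    intro i j hij h
    exact hij (hf h)
  have hfne : ∀ i j : Fin 5, i ≠ j → f i ≠ f j := fun i j hij h => hij (f.injective h)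
  have hadj : ∀ i j : Fin 5, G.Adj (f i) (f j) ↔ house.Adj i j := fun i j => f.map_rel_iff
  have ok1' : ∀ i j : Fin 5, i ≠ j → ¬ house.Adj i j → ok1 (f i) (f j) = true := by
    intro i j hij h
    exact ok1_of G hG (hfne i j hij) (fun h' => h ((hadj i j).mp h'))
  have ok0' : ∀ i j : Fin 5, house.Adj i j → ok0 (f i) (f j) = true := by
    intro i j h
    exact ok0_of G hG ((hadj i j).mpr h)
  have hmem : pat (f 0) (f 1) (f 2) (f 3) (f 4) ∈ patterns := by
    refine mem_patterns (f 0).isLt (f 1).isLt (f 2).isLt (f 3).isLt (f 4).isLt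
      (ok1' 0 1 (by decide) (by decide)) (ok1' 1 2 (by decide) (by decide))
      (ok0' 0 2 (by decide)) (ok1' 2 3 (by decide) (by decide)) (ok0' 1 3 (by decide))
      (ok0' 0 3 (by decide)) (ok1' 3 4 (by decide) (by decide)) (ok0' 2 4 (by decide))
      (ok0' 1 4 (by decide)) (ok0' 0 4 (by decide))
  have hA1 : ∀ i j : Fin 5, i ≠ j → ¬ house.Adj i j → A G (code (f i) (f j)) := by
    intro i j hij h
    rw [A_code G (hfne i j hij)]
    exact fun h' => h ((hadj i j).mp h')
  have hA0 : ∀ i j : Fin 5, house.Adj i j → ¬ A G (code (f i) (f j)) := by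
    intro i j h
    rw [A_code G (hfne i j (house.ne_of_adj h)), not_not]
    exact (hadj i j).mpr h
  have hreal : Real (A G) (pat (f 0) (f 1) (f 2) (f 3) (f 4)) := by
    constructor
    · intro v hv
      simp only [pat, Nat.testBit_or, Bool.or_eq_true, testBit_bit] at hv
      rcases hv with ((rfl | rfl) | rfl) | rfl
      · exact hA1 0 1 (by decide) (by decide)
      · exact hA1 1 2 (by decide) (by decide)
      · exact hA1 2 3 (by decide) (by decide)
      · exact hA1 3 4 (by decide) (by decide)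
    · intro v hv
      simp only [pat, Nat.testBit_or, Bool.or_eq_true, testBit_bit] at hv
      rcases hv with ((((rfl | rfl) | rfl) | rfl) | rfl) | rfl
      · exact hA0 0 2 (by decide)
      · exact hA0 0 3 (by decide)
      · exact hA0 0 4 (by decide)
      · exact hA0 1 3 (by decide)
      · exact hA0 1 4 (by decide)
      · exact hA0 2 4 (by decide)
  have hne := hL _ hmem hreal
  apply hne
  apply Nat.eq_of_testBit_eq
  intro v
  rw [Nat.zero_testBit, Nat.testBit_and, Bool.and_eq_false_iff]
  by_contra hcon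
  rw [not_or, Bool.not_eq_false, Bool.not_eq_false] at hcon
  obtain ⟨hv1, hv2⟩ := hcon
  simp only [pat, Nat.testBit_or, Bool.or_eq_true, testBit_bit] at hv1
  rcases hv1 with ((rfl | rfl) | rfl) | rfl
  · exact hinj 0 1 (by decide) ((hmask' _ _ (hfne 0 1 (by decide))).mp hv2)
  · exact hinj 1 2 (by decide) ((hmask' _ _ (hfne 1 2 (by decide))).mp hv2)
  · exact hinj 2 3 (by decide) ((hmask' _ _ (hfne 2 3 (by decide))).mp hv2)
  · exact hinj 3 4 (by decide) ((hmask' _ _ (hfne 3 4 (by decide))).mp hv2)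

/-- No graph on eight vertices arrows the house. -/
theorem not_arrow_eight (G : SimpleGraph (Fin 8)) : ¬ Arrow G house := by
  intro hArr
  -- the colouring with pairwise distinct colours gives an induced house
  obtain ⟨f, -⟩ := hArr (SimpleGraph.Coloring.mk (fun i => i.val)
    (fun {i j} h h' => G.ne_of_adj h (Fin.ext h')))
  -- extend `f` to a permutation
  have h58 : 5 ≤ 8 := by norm_num
  obtain ⟨σ, hσ⟩ : ∃ σ : Fin 8 ≃ Fin 8, ∀ i : Fin 5, σ (Fin.castLE h58 i) = f i := by
    have hinj1 : Function.Injective (Fin.castLE h58) := Fin.castLE_injective h58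
    let s : Finset (Fin 8) := Finset.univ.map ⟨Fin.castLE h58, hinj1⟩
    let g : Fin 8 → Fin 8 := fun x => if h : x.val < 5 then f ⟨x.val, h⟩ else x
    have hcast : ∀ i : Fin 5, g (Fin.castLE h58 i) = f i := by
      intro i
      have : (Fin.castLE h58 i).val < 5 := i.isLt
      simp only [g, dif_pos this]
      rfl
    have hg : Set.InjOn g (s : Set (Fin 8)) := by
      intro x hx y hy hxy
      simp only [s, Finset.coe_map, Set.mem_image, Finset.coe_univ, Set.mem_univ, true_and,
        Function.Embedding.coeFn_mk] at hx hy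
      obtain ⟨i, rfl⟩ := hx
      obtain ⟨j, rfl⟩ := hy
      rw [hcast, hcast] at hxy
      rw [f.injective hxy]
    obtain ⟨σ, hσ⟩ := Finset.exists_equiv_extend_of_card_eq (t := (Finset.univ : Finset (Fin 8)))
      (by simp) (s := s) (f := g) (by intro x _; simp) hg
    refine ⟨σ.trans ((Equiv.subtypeUnivEquiv (fun x => Finset.mem_univ x))), ?_⟩
    intro i
    have := hσ (Fin.castLE h58 i) (by simp [s])
    rw [Equiv.trans_apply, Equiv.subtypeUnivEquiv_apply, this, hcast]
  -- transport
  let G' : SimpleGraph (Fin 8) := G.comap σ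
  have e : G ↪g G' :=
    { toFun := σ.symm
      inj' := σ.symm.injective
      map_rel_iff' := by
        intro a b
        change G.Adj (σ (σ.symm a)) (σ (σ.symm b)) ↔ G.Adj a b
        rw [Equiv.apply_symm_apply, Equiv.apply_symm_apply] }
  refine not_arrow_of_base G' ?_ (hArr.mono e)
  intro i j
  change G.Adj (σ _) (σ _) ↔ _
  rw [hσ, hσ]
  exact f.map_rel_iff

theorem nine_le_of_arrow {n : ℕ} (G : SimpleGraph (Fin n)) (h : Arrow G house) : 9 ≤ n := by
  by_contra hn
  have hn8 : n ≤ 8 := by omega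
  exact not_arrow_eight _ (h.mono (SimpleGraph.Embedding.map (Fin.castLEEmb hn8) G))

theorem two_le_of_arrow {n : ℕ} (G : SimpleGraph (Fin n))
    (h : Arrow G (⊤ : SimpleGraph (Fin 2))) : 2 ≤ n := by
  obtain ⟨f, -⟩ := h (SimpleGraph.Coloring.mk (fun i => i.val)
    (fun {i j} h h' => G.ne_of_adj h (Fin.ext h')))
  have := Fintype.card_le_of_injective f f.injective
  simpa using this

/-! ### Upper bounds -/

theorem arrow_K2 : Arrow (⊤ : SimpleGraph (Fin 2)) (⊤ : SimpleGraph (Fin 2)) := by
  intro c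
  refine ⟨RelEmbedding.refl _, ?_⟩
  intro i j hij
  by_contra hne
  exact c.valid (show (⊤ : SimpleGraph (Fin 2)).Adj i j from hne) hij

/-- The parent function of the spider with centre `0`, middle vertices `1, 2, 3` and leaves
`4, 5` at `1`, `6, 7` at `2` and `8, 9` at `3`. -/
def par : Fin 10 → Fin 10 := ![0, 0, 0, 0, 1, 1, 2, 2, 3, 3]

/-- The complement of the spider. -/
def S : SimpleGraph (Fin 10) where
  Adj x y := x ≠ y ∧ par x ≠ y ∧ par y ≠ x
  symm := by
    constructor
    intro x y h
    exact ⟨h.1.symm, h.2.2, h.2.1⟩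
  loopless := by
    constructor
    intro x h
    exact h.1 rfl

instance : DecidableRel S.Adj := fun x y =>
  inferInstanceAs (Decidable (x ≠ y ∧ par x ≠ y ∧ par y ≠ x))

/-- The graph used for the house: the complement of the path with five vertices in which all
vertices but the first are doubled; vertex `x` belongs to class `(x + 1) / 2`. -/
def D : SimpleGraph (Fin 9) where
  Adj x y := x ≠ y ∧ (x.val + 1) / 2 ≠ (y.val + 1) / 2 + 1 ∧ (y.val + 1) / 2 ≠ (x.val + 1) / 2 + 1
  symm := by
    constructor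
    intro x y h
    exact ⟨h.1.symm, h.2.2, h.2.1⟩
  loopless := by
    constructor
    intro x h
    exact h.1 rfl

instance : DecidableRel D.Adj := fun x y =>
  inferInstanceAs (Decidable (x ≠ y ∧ (x.val + 1) / 2 ≠ (y.val + 1) / 2 + 1 ∧
    (y.val + 1) / 2 ≠ (x.val + 1) / 2 + 1))

/-- A map which preserves and reflects adjacency and gives distinct colours to distinct
non-adjacent vertices is a rainbow embedding. -/
theorem rainbow_of {V W : Type*} {G : SimpleGraph V} {H : SimpleGraph W} (c : G.Coloring ℕ)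
    (f : W → V) (hf : ∀ u v, G.Adj (f u) (f v) ↔ H.Adj u v)
    (hc : ∀ u v, u ≠ v → ¬ H.Adj u v → c (f u) ≠ c (f v)) :
    ∃ f : H ↪g G, Function.Injective fun w => c (f w) := by
  have hcc : Function.Injective fun w => c (f w) := by
    intro u v huv
    by_contra hne
    by_cases hadj : H.Adj u v
    · exact c.valid ((hf u v).mpr hadj) huv
    · exact hc u v hne hadj huv
  exact ⟨⟨⟨f, fun u v h => hcc (congrArg c h)⟩, by intro u v; exact hf u v⟩, hcc⟩

/-- A pair of adjacent vertices cannot both have the colour of a given vertex. -/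
theorem pick {V : Type*} {G : SimpleGraph V} (c : G.Coloring ℕ) {a b : V} (h : G.Adj a b)
    (x : ℕ) : c a ≠ x ∨ c b ≠ x := by
  by_contra hcon
  rw [not_or, not_not, not_not] at hcon
  exact c.valid h (hcon.1.trans hcon.2.symm)

theorem arrow_D : Arrow D house := by
  intro c
  have key : ∀ a b d e : Fin 9, (∀ u v, D.Adj ((![0, a, b, d, e] : Fin 5 → Fin 9) u)
      ((![0, a, b, d, e] : Fin 5 → Fin 9) v) ↔ house.Adj u v) →
      c a ≠ c 0 → c b ≠ c a → c d ≠ c b → c e ≠ c d →
      ∃ f : house ↪g D, Function.Injective fun w => c (f w) := by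
    intro a b d e h h1 h2 h3 h4
    refine rainbow_of c ![0, a, b, d, e] h ?_
    intro u v huv hnadj
    rw [house_adj] at hnadj
    fin_cases u <;> fin_cases v <;> simp at huv hnadj ⊢ <;>
      first
        | exact h1 | exact h1.symm | exact h2 | exact h2.symm
        | exact h3 | exact h3.symm | exact h4 | exact h4.symm
  rcases pick c (show D.Adj 1 2 by decide) (c 0) with h1 | h1
  · rcases pick c (show D.Adj 3 4 by decide) (c 1) with h2 | h2
    · rcases pick c (show D.Adj 5 6 by decide) (c 3) with h3 | h3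
      · rcases pick c (show D.Adj 7 8 by decide) (c 5) with h4 | h4
        · exact key _ _ _ _ (by decide) h1 h2 h3 h4
        · exact key _ _ _ _ (by decide) h1 h2 h3 h4
      · rcases pick c (show D.Adj 7 8 by decide) (c 6) with h4 | h4
        · exact key _ _ _ _ (by decide) h1 h2 h3 h4
        · exact key _ _ _ _ (by decide) h1 h2 h3 h4
    · rcases pick c (show D.Adj 5 6 by decide) (c 4) with h3 | h3
      · rcases pick c (show D.Adj 7 8 by decide) (c 5) with h4 | h4
        · exact key _ _ _ _ (by decide) h1 h2 h3 h4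
        · exact key _ _ _ _ (by decide) h1 h2 h3 h4
      · rcases pick c (show D.Adj 7 8 by decide) (c 6) with h4 | h4
        · exact key _ _ _ _ (by decide) h1 h2 h3 h4
        · exact key _ _ _ _ (by decide) h1 h2 h3 h4
  · rcases pick c (show D.Adj 3 4 by decide) (c 2) with h2 | h2
    · rcases pick c (show D.Adj 5 6 by decide) (c 3) with h3 | h3
      · rcases pick c (show D.Adj 7 8 by decide) (c 5) with h4 | h4
        · exact key _ _ _ _ (by decide) h1 h2 h3 h4
        · exact key _ _ _ _ (by decide) h1 h2 h3 h4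
      · rcases pick c (show D.Adj 7 8 by decide) (c 6) with h4 | h4
        · exact key _ _ _ _ (by decide) h1 h2 h3 h4
        · exact key _ _ _ _ (by decide) h1 h2 h3 h4
    · rcases pick c (show D.Adj 5 6 by decide) (c 4) with h3 | h3
      · rcases pick c (show D.Adj 7 8 by decide) (c 5) with h4 | h4
        · exact key _ _ _ _ (by decide) h1 h2 h3 h4
        · exact key _ _ _ _ (by decide) h1 h2 h3 h4
      · rcases pick c (show D.Adj 7 8 by decide) (c 6) with h4 | h4
        · exact key _ _ _ _ (by decide) h1 h2 h3 h4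
        · exact key _ _ _ _ (by decide) h1 h2 h3 h4

/-- the map used for the spider: `x, y` carry `K₂`, and `a - i - 0 - j - b` the house -/
def emb (x y a i j b : Fin 10) : Fin 2 ⊕ Fin 5 → Fin 10 :=
  Sum.elim ![x, y] ![a, i, 0, j, b]

theorem arrow_S : Arrow S (join (⊤ : SimpleGraph (Fin 2)) house) := by
  intro c
  have key : ∀ x y a i j b : Fin 10, (∀ u v, S.Adj (emb x y a i j b u) (emb x y a i j b v) ↔
      (join (⊤ : SimpleGraph (Fin 2)) house).Adj u v) →
      c a ≠ c i → c i ≠ c 0 → c j ≠ c 0 → c b ≠ c j →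
      ∃ f : join (⊤ : SimpleGraph (Fin 2)) house ↪g S, Function.Injective fun w => c (f w) := by
    intro x y a i j b h h1 h2 h3 h4
    refine rainbow_of c (emb x y a i j b) h ?_
    rintro (u | u) (v | v) huv hnadj
    · exact absurd (show (join (⊤ : SimpleGraph (Fin 2)) house).Adj (Sum.inl u) (Sum.inl v) from
        fun h => huv (congrArg Sum.inl h)) hnadj
    · exact absurd trivial hnadj
    · exact absurd trivial hnadj
    · have hnadj' : ¬ house.Adj u v := hnadj
      have huv' : u ≠ v := fun h => huv (congrArg Sum.inr h)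
      change c ((![a, i, 0, j, b] : Fin 5 → Fin 10) u) ≠ c ((![a, i, 0, j, b] : Fin 5 → Fin 10) v)
      rw [house_adj] at hnadj'
      clear hnadj huv
      fin_cases u <;> fin_cases v <;> simp at huv' hnadj' ⊢ <;>
        first
          | exact h1 | exact h1.symm | exact h2 | exact h2.symm
          | exact h3 | exact h3.symm | exact h4 | exact h4.symm
  by_cases h1 : c 1 = c 0
  · have h2 : c 2 ≠ c 0 := fun h => c.valid (show S.Adj 1 2 by decide) (h1.trans h.symm)
    have h3 : c 3 ≠ c 0 := fun h => c.valid (show S.Adj 1 3 by decide) (h1.trans h.symm)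
    rcases pick c (show S.Adj 6 7 by decide) (c 2) with h4 | h4 <;>
    rcases pick c (show S.Adj 8 9 by decide) (c 3) with h5 | h5
    · exact key 4 5 _ _ _ _ (by decide) h4 h2 h3 h5
    · exact key 4 5 _ _ _ _ (by decide) h4 h2 h3 h5
    · exact key 4 5 _ _ _ _ (by decide) h4 h2 h3 h5
    · exact key 4 5 _ _ _ _ (by decide) h4 h2 h3 h5
  · by_cases h2 : c 2 = c 0
    · have h3 : c 3 ≠ c 0 := fun h => c.valid (show S.Adj 2 3 by decide) (h2.trans h.symm)
      rcases pick c (show S.Adj 4 5 by decide) (c 1) with h4 | h4 <;>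
      rcases pick c (show S.Adj 8 9 by decide) (c 3) with h5 | h5
      · exact key 6 7 _ _ _ _ (by decide) h4 h1 h3 h5
      · exact key 6 7 _ _ _ _ (by decide) h4 h1 h3 h5
      · exact key 6 7 _ _ _ _ (by decide) h4 h1 h3 h5
      · exact key 6 7 _ _ _ _ (by decide) h4 h1 h3 h5
    · rcases pick c (show S.Adj 4 5 by decide) (c 1) with h4 | h4 <;>
      rcases pick c (show S.Adj 6 7 by decide) (c 2) with h5 | h5
      · exact key 8 9 _ _ _ _ (by decide) h4 h1 h2 h5
      · exact key 8 9 _ _ _ _ (by decide) h4 h1 h2 h5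
      · exact key 8 9 _ _ _ _ (by decide) h4 h1 h2 h5
      · exact key 8 9 _ _ _ _ (by decide) h4 h1 h2 h5

theorem rho_K2 : rho (⊤ : SimpleGraph (Fin 2)) = 2 := by
  apply le_antisymm
  · exact Nat.sInf_le ⟨⊤, arrow_K2⟩
  · obtain ⟨G, hG⟩ := Nat.sInf_mem (s := {n : ℕ | ∃ G : SimpleGraph (Fin n),
      Arrow G (⊤ : SimpleGraph (Fin 2))}) ⟨2, ⊤, arrow_K2⟩
    exact two_le_of_arrow G hG

theorem rho_house : rho house = 9 := by
  apply le_antisymm
  · exact Nat.sInf_le ⟨D, arrow_D⟩
  · obtain ⟨G, hG⟩ := Nat.sInf_mem (s := {n : ℕ | ∃ G : SimpleGraph (Fin n),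
      Arrow G house}) ⟨9, D, arrow_D⟩
    exact nine_le_of_arrow G hG

theorem rho_join_le : rho (join (⊤ : SimpleGraph (Fin 2)) house) ≤ 10 :=
  Nat.sInf_le ⟨S, arrow_S⟩

/-- The rainbow induced-subgraph number is not additive under join: `ρ(K₂) = 2`,
`ρ(house) = 9`, but `ρ(K₂ + house) ≤ 10`. -/
theorem result :
    rho (⊤ : SimpleGraph (Fin 2)) = 2 ∧ rho house = 9 ∧
      rho (join (⊤ : SimpleGraph (Fin 2)) house) ≤ 10 ∧
      ¬ ∀ (m n : ℕ) (H₁ : SimpleGraph (Fin m)) (H₂ : SimpleGraph (Fin n)),
        rho (join H₁ H₂) = rho H₁ + rho H₂ := by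
  refine ⟨rho_K2, rho_house, rho_join_le, ?_⟩
  intro h
  have h1 := h 2 5 ⊤ house
  have h2 := rho_join_le
  rw [h1, rho_K2, rho_house] at h2
  omega

end Pool.Agent.Results.MP_38c8a2_co.JoinNotAdditive
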